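import Mathlib
import Pool.Agent.H763.RoWp
import Pool.Agent.H763.RoMean
import Pool.Agent.H763.RoHull

/-!
Every nontrivial soluble right-orderable group has infinite abelianization.
-/

open scoped commutatorElement

universe u

namespace RO

/-- linear order attached to a cone -/
noncomputable def coneOrder {G : Type*} [Group G] {Q : Set G} (hQ : IsCone Q) : LinearOrder G :=
  { le := fun a b => a = b ∨ b * a⁻¹ ∈ Q
    lt := fun a b => b * a⁻¹ ∈ Q
    le_refl := fun a => Or.inl rfl
    le_trans := by
      rintro a b c (rfl | h1) (rfl | h2)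
      · exact Or.inl rfl
      · exact Or.inr h2
      · exact Or.inr h1
      · right
        have := hQ.mul _ h2 _ h1
        simpa using this
    lt_iff_le_not_ge := by
      intro a b
      constructor
      · intro h
        refine ⟨Or.inr h, ?_⟩
        rintro (rfl | h2)
        · exact hQ.one (by simpa using h)
        · have := hQ.mul _ h _ h2
          exact hQ.one (by simpa using this)
      · rintro ⟨rfl | h, h2⟩
        · exact absurd (Or.inl rfl) h2
        · exact h
    le_antisymm := by
      rintro a b (rfl | h1) (h | h2)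
      · rfl
      · rfl
      · exact h.symm
      · exfalso
        have := hQ.mul _ h1 _ h2
        exact hQ.one (by simpa using this)
    le_total := by
      intro a b
      rcases hQ.tri (b * a⁻¹) with h | h | h
      · exact Or.inl (Or.inr h)
      · exact Or.inl (Or.inl (mul_inv_eq_one.1 h).symm)
      · right; right
        simpa using h
    toDecidableLE := Classical.decRel _ }

theorem fg_case {G : Type*} [Group G] (hs : Group.IsSolvable G) (P : Set G) (hP : IsCone P)
    (T : Finset G) (hT : Subgroup.closure (T : Set G) = ⊤) (m : ℕ) (hm : 0 < m)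
    (htm : ∀ t ∈ T, t ^ m ∈ commutator G) (hne : ∃ g : G, g ≠ 1) : False := by
  obtain ⟨Q, hQ, hC⟩ := exists_cone_limit (hasMean_of_solvable hs) P hP
  letI : LinearOrder G := coneOrder hQ
  have hlt : ∀ a b : G, a < b ↔ b * a⁻¹ ∈ Q := fun a b => Iff.rfl
  obtain ⟨N, hN, hroot, hfg, P', hmul, hconj, htri, hdisj, hNP, harch⟩ := hull_main (G := G)
    (by
      intro a b c h
      rw [hlt] at h ⊢
      simpa [mul_assoc] using h)
    (by
      intro x a b h1 h2
      rw [hlt] at h1 h2 ⊢
      have := hC _ h1 _ h2
      convert this using 1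
      group)
  obtain ⟨t, ht, htN⟩ := hfg T hT hne
  apply htN
  apply hroot t m hm
  have hcomm : commutator G ≤ N := by
    let π := QuotientGroup.mk' N
    have hπ : Function.Surjective π := QuotientGroup.mk'_surjective N
    have hk : ∀ g, π g = 1 ↔ g ∈ N := fun g => QuotientGroup.eq_one_iff g
    have key := holder_comm (Γ := G ⧸ N) (π '' P')
      (by
        rintro _ ⟨a, ha, rfl⟩ _ ⟨b, hb, rfl⟩
        exact ⟨a * b, hmul a ha b hb, map_mul _ _ _⟩)
      (by
        rintro ⟨a, ha, h⟩
        exact hdisj a ha ((hk a).1 h))
      (by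
        intro q
        obtain ⟨g, rfl⟩ := hπ q
        rcases htri g with h | h | h
        · exact Or.inr (Or.inl ((hk g).2 h))
        · exact Or.inl ⟨g, h, rfl⟩
        · exact Or.inr (Or.inr ⟨g⁻¹, h, map_inv _ _⟩))
      (by
        rintro q _ ⟨a, ha, rfl⟩
        obtain ⟨g, rfl⟩ := hπ q
        exact ⟨g * a * g⁻¹, hconj g a ha, by simp⟩)
      (by
        rintro _ ⟨a, ha, rfl⟩ _ ⟨b, hb, rfl⟩
        obtain ⟨n, hn⟩ := harch a ha b hb
        refine ⟨n, ?_⟩
        rcases hn with h | h
        · left; exact ⟨_, h, by simp⟩
        · right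
          have := (hk _).2 h
          simpa using this)
    rw [commutator_def, Subgroup.commutator_le]
    intro a _ b _
    rw [← hk, map_commutatorElement, commutatorElement_eq_one_iff_mul_comm]
    exact key _ _
  exact hcomm (htm t ht)

theorem main_thm {G : Type*} [Group G] [Nontrivial G] (hs : Group.IsSolvable G)
    (P : Set G) (hP : IsCone P) : Infinite (Abelianization G) := by
  by_contra hinf
  rw [not_infinite_iff_finite] at hinf
  obtain ⟨T, ⟨t0, ht0, ht01⟩, m, hm, hT⟩ := red_fg hs hinf
  let D := Subgroup.closure (T : Set G)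
  have hTD : ∀ t ∈ T, t ∈ D := fun t ht => Subgroup.subset_closure ht
  have hsD : Group.IsSolvable D := inferInstance
  have hPD : IsCone {d : D | (d : G) ∈ P} :=
    { mul := fun a ha b hb => hP.mul _ ha _ hb
      one := hP.one
      tri := fun g => by
        rcases hP.tri (g : G) with h | h | h
        · exact Or.inl h
        · exact Or.inr (Or.inl (Subtype.ext h))
        · exact Or.inr (Or.inr h) }
  classical
  let T' : Finset D := T.attach.image (fun t => ⟨t.1, hTD t.1 t.2⟩)
  have hT' : (T' : Set D) = ((↑) : D → G) ⁻¹' (T : Set G) := by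
    ext d
    simp only [T', Finset.coe_image, Set.mem_image, Set.mem_preimage, Finset.mem_coe,
      Finset.mem_attach, true_and]
    constructor
    · rintro ⟨⟨t, ht⟩, rfl⟩
      exact ht
    · intro h
      exact ⟨⟨d, h⟩, rfl⟩
  have hcl : Subgroup.closure (T' : Set D) = ⊤ := by
    rw [hT']
    exact Subgroup.closure_closure_coe_preimage
  refine fg_case hsD _ hPD T' hcl m hm ?_ ⟨⟨t0, hTD t0 ht0⟩, fun h => ht01 (congrArg Subtype.val h)⟩
  intro t ht
  have ht2 : (t : G) ∈ T := by
    have : t ∈ (T' : Set D) := ht
    rw [hT'] at this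
    exact this
  have h := hT (t : G) ht2
  have hmap : (commutator D).map D.subtype = ⁅D, D⁆ := by
    rw [commutator_def, Subgroup.map_commutator, ← MonoidHom.range_eq_map, Subgroup.range_subtype]
  rw [← hmap] at h
  obtain ⟨d, hd, hdt⟩ := h
  have : d = t ^ m := by
    apply Subtype.ext
    simpa using hdt
  rw [← this]
  exact hd

end RO

namespace Pool.Agent.Results.MP_0c2877_al.InfiniteAbelianization

/-- Every nontrivial soluble group carrying a strict total order invariant under right
multiplication has infinite abelianization. -/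
theorem result (G : Type u) [Group G] [Nontrivial G] (hs : Group.IsSolvable G) (r : G → G → Prop)
    [IsStrictTotalOrder G r] (hr : ∀ a b c : G, r a b → r (a * c) (b * c)) :
    Infinite (Abelianization G) := by
  apply RO.main_thm hs {g | r 1 g}
  refine ⟨?_, ?_, ?_⟩
  · intro a ha b hb
    have h1 : r (1 * b) (a * b) := hr _ _ b ha
    rw [one_mul] at h1
    exact _root_.trans hb h1
  · exact irrefl (r := r) 1
  · intro g
    rcases trichotomous_of r 1 g with h | h | h
    · exact Or.inl h
    · exact Or.inr (Or.inl h.symm)
    · right; right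
      have := hr _ _ g⁻¹ h
      simpa using this

end Pool.Agent.Results.MP_0c2877_al.InfiniteAbelianization
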